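import Pool.Agent.W719.AR.Rt

/-!
# The normalising factor at the root of unity
-/

set_option autoImplicit false

namespace Pool.Agent.W12.AR

open Finset Filter Topology
open Pool.Agent.H550R3.Jones Pool.Agent.W711.HT Pool.Agent.W719.AR
open scoped Real

/-! ### algebra -/

lemma un_sub {v : ℂ} (hv : v ≠ 0) (c j : ℕ) :
    un v c - un v j = br v ((c : ℤ) - j) * br v ((c : ℤ) + j + 1) := by
  unfold un br
  have e1 : v ^ (2 * (c : ℤ) + 1) = v ^ ((c : ℤ) - j) * v ^ ((c : ℤ) + j + 1) := by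
    rw [← zpow_add₀ hv]; congr 1; ring
  have e2 : v ^ (-(2 * (c : ℤ) + 1)) = v ^ (-((c : ℤ) - j)) * v ^ (-((c : ℤ) + j + 1)) := by
    rw [← zpow_add₀ hv]; congr 1; ring
  have e3 : v ^ (2 * (j : ℤ) + 1) = v ^ (-((c : ℤ) - j)) * v ^ ((c : ℤ) + j + 1) := by
    rw [← zpow_add₀ hv]; congr 1; ring
  have e4 : v ^ (-(2 * (j : ℤ) + 1)) = v ^ ((c : ℤ) - j) * v ^ (-((c : ℤ) + j + 1)) := by
    rw [← zpow_add₀ hv]; congr 1; ring
  rw [e1, e2, e3, e4]
  ring

lemma br_neg (v : ℂ) (n : ℤ) : br v (-n) = -br v n := by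
  unfold br
  rw [neg_neg]
  ring

lemma brf_add (v : ℂ) (m n : ℕ) :
    brf v (m + n) = brf v m * ∏ j ∈ range n, br v ((m : ℤ) + j + 1) := by
  unfold brf
  rw [Finset.prod_range_add]
  congr 1

lemma erase_eq {N c : ℕ} (hc : c < N) (f : ℕ → ℂ) :
    ∏ j ∈ (range N).erase c, f j = (∏ j ∈ range c, f j) * ∏ j ∈ range (N - 1 - c), f (c + 1 + j) := by
  have h1 : (range N).erase c = range c ∪ Ico (c + 1) N := by
    ext j
    simp only [mem_erase, mem_range, mem_union, mem_Ico]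
    omega
  have h2 : Disjoint (range c) (Ico (c + 1) N) := by
    rw [Finset.disjoint_left]
    intro j h3 h4
    simp only [mem_range, mem_Ico] at h3 h4
    omega
  rw [h1, Finset.prod_union h2, Finset.prod_Ico_eq_prod_range]
  congr 2
  congr 1
  omega

lemma prod_diff (v : ℂ) {N c : ℕ} (hc : c < N) :
    ∏ j ∈ (range N).erase c, br v ((c : ℤ) - j) = (-1) ^ (N - 1 - c) * (brf v c * brf v (N - 1 - c)) := by
  rw [erase_eq hc]
  have h1 : ∏ j ∈ range c, br v ((c : ℤ) - j) = brf v c := by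
    unfold brf
    rw [← Finset.prod_range_reflect]
    apply Finset.prod_congr rfl
    intro j hj
    have := mem_range.1 hj
    congr 1
    omega
  have h2 : ∏ j ∈ range (N - 1 - c), br v ((c : ℤ) - ((c + 1 + j : ℕ) : ℤ)) =
      (-1) ^ (N - 1 - c) * brf v (N - 1 - c) := by
    have e : ∀ j : ℕ, br v ((c : ℤ) - ((c + 1 + j : ℕ) : ℤ)) = (-1) * br v ((j : ℤ) + 1) := by
      intro j
      have : (c : ℤ) - ((c + 1 + j : ℕ) : ℤ) = -((j : ℤ) + 1) := by push_cast; ring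
      rw [this, br_neg]
      ring
    simp only [e]
    rw [Finset.prod_mul_distrib, Finset.prod_const, card_range]
    rfl
  rw [h1, h2]
  ring

/-- the denominator without the factor `{N}` -/
noncomputable def Pc (N c : ℕ) (v : ℂ) : ℂ :=
  brf v (N - 1 - c) * brf v (N - 1) * ∏ j ∈ range c, br v ((N : ℤ) + j + 1)

lemma denom {v : ℂ} (hv : v ≠ 0) {N c : ℕ} (hc : c < N) :
    br v (2 * (c : ℤ) + 1) * ∏ j ∈ (range N).erase c, (un v c - un v j) =
      br v N * ((-1) ^ (N - 1 - c) * Pc N c v) := by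
  have h1 : ∏ j ∈ (range N).erase c, (un v c - un v j) =
      (∏ j ∈ (range N).erase c, br v ((c : ℤ) - j)) *
        ∏ j ∈ (range N).erase c, br v ((c : ℤ) + j + 1) := by
    rw [← Finset.prod_mul_distrib]
    exact Finset.prod_congr rfl fun j _ => un_sub hv c j
  have h2 : br v (2 * (c : ℤ) + 1) * ∏ j ∈ (range N).erase c, br v ((c : ℤ) + j + 1) =
      ∏ j ∈ range N, br v ((c : ℤ) + j + 1) := by
    rw [← Finset.mul_prod_erase (range N) (fun j : ℕ => br v ((c : ℤ) + j + 1)) (mem_range.2 hc)]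
    congr 2
    ring
  have h3 : brf v c * ∏ j ∈ range N, br v ((c : ℤ) + j + 1) = brf v (c + N) :=
    (brf_add v c N).symm
  have h4 : brf v (c + N) = brf v (N - 1) * br v N * ∏ j ∈ range c, br v ((N : ℤ) + j + 1) := by
    rw [add_comm c N, brf_add v N c]
    congr 1
    obtain ⟨M, rfl⟩ : ∃ M, N = M + 1 := ⟨N - 1, by omega⟩
    rw [Nat.add_sub_cancel]
    unfold brf
    rw [Finset.prod_range_succ]
    push_cast
    rfl
  calc br v (2 * (c : ℤ) + 1) * ∏ j ∈ (range N).erase c, (un v c - un v j)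
      = (∏ j ∈ (range N).erase c, br v ((c : ℤ) - j)) *
        (br v (2 * (c : ℤ) + 1) * ∏ j ∈ (range N).erase c, br v ((c : ℤ) + j + 1)) := by
        rw [h1]; ring
    _ = (-1) ^ (N - 1 - c) * brf v (N - 1 - c) *
        (brf v c * ∏ j ∈ range N, br v ((c : ℤ) + j + 1)) := by
        rw [h2, prod_diff v hc]; ring
    _ = _ := by
        rw [h3, h4]
        unfold Pc
        ring

lemma gam_eq {v : ℂ} (hv : v ≠ 0) {N c : ℕ} (hc : c < N) (hb : br v N ≠ 0) :
    gam N v c = (-1) ^ (N - 1 - c) / Pc N c v := by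
  unfold gam
  rw [denom hv hc]
  have h1 : ((-1 : ℂ) ^ (N - 1 - c)) * (-1) ^ (N - 1 - c) = 1 := by
    rw [← mul_pow]; norm_num
  have h2 : ((-1 : ℂ) ^ (N - 1 - c)) ≠ 0 := pow_ne_zero _ (by norm_num)
  rw [div_mul_eq_div_div, div_self hb, one_div, mul_inv, div_eq_mul_inv]
  congr 1
  exact inv_eq_of_mul_eq_one_left h1

/-! ### values at the root of unity -/

lemma vN_ne (N : ℕ) : vN N ≠ 0 := Complex.exp_ne_zero _

lemma vN_pow {N : ℕ} (hN : 0 < N) : vN N ^ (N : ℤ) = -1 := by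
  unfold vN
  rw [zpow_natCast, ← Complex.exp_nat_mul]
  have hN' : (N : ℂ) ≠ 0 := by exact_mod_cast hN.ne'
  have : (N : ℂ) * (π * Complex.I / N) = π * Complex.I := by field_simp
  rw [this, Complex.exp_pi_mul_I]

lemma br_add_N {N : ℕ} (hN : 0 < N) (m : ℤ) : br (vN N) ((N : ℤ) + m) = -br (vN N) m := by
  unfold br
  rw [zpow_add₀ (vN_ne N), neg_add, zpow_add₀ (vN_ne N), vN_pow hN, zpow_neg, vN_pow hN]
  norm_num
  ring

lemma br_sub_N {N : ℕ} (hN : 0 < N) (m : ℤ) : br (vN N) ((N : ℤ) - m) = br (vN N) m := by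
  rw [sub_eq_add_neg, br_add_N hN, br_neg, neg_neg]

lemma br_ne {N : ℕ} {m : ℤ} (h0 : 0 < m) (h1 : m < N) : br (vN N) m ≠ 0 := by
  have hN : (0 : ℤ) < N := h0.trans h1
  have hN' : (0 : ℝ) < N := by exact_mod_cast hN
  intro h
  unfold br at h
  have h2 : vN N ^ (2 * m) = 1 := by
    have h3 : vN N ^ m = vN N ^ (-m) := sub_eq_zero.1 h
    rw [two_mul, zpow_add₀ (vN_ne N)]
    nth_rewrite 1 [h3]
    rw [← zpow_add₀ (vN_ne N)]
    simp
  unfold vN at h2
  rw [← Complex.exp_int_mul, Complex.exp_eq_one_iff] at h2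
  obtain ⟨k, hk⟩ := h2
  have hpi : (π : ℂ) ≠ 0 := by exact_mod_cast Real.pi_ne_zero
  have hNc : (N : ℂ) ≠ 0 := by exact_mod_cast hN'.ne'
  have h4 : (m : ℂ) = k * N := by
    have h5 : ((2 * m : ℤ) : ℂ) * (π * Complex.I / N) = 2 * π * Complex.I * (m / N) := by
      push_cast; ring
    rw [h5] at hk
    have h6 : 2 * (π : ℂ) * Complex.I ≠ 0 :=
      mul_ne_zero (mul_ne_zero two_ne_zero hpi) Complex.I_ne_zero
    have h7 : (m : ℂ) / N = k := by
      apply mul_left_cancel₀ h6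
      rw [hk]; ring
    rw [← h7]
    field_simp
  have h5 : m = k * N := by exact_mod_cast h4
  have hk0 : 0 < k := by
    by_contra hcon
    push Not at hcon
    have : k * (N : ℤ) ≤ 0 := mul_nonpos_of_nonpos_of_nonneg hcon hN.le
    omega
  have : (1 : ℤ) * N ≤ k * N := mul_le_mul_of_nonneg_right hk0 hN.le
  omega

lemma prim {N : ℕ} (hN : 0 < N) : IsPrimitiveRoot (vN N ^ 2) N := by
  have h := Complex.isPrimitiveRoot_exp N hN.ne'
  have e : vN N ^ 2 = Complex.exp (2 * π * Complex.I / N) := by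
    unfold vN
    rw [← Complex.exp_nat_mul]
    congr 1
    push_cast
    ring
  rw [e]
  exact h

/-- `({N-1}!)² = (-1)^(N-1) N²` -/
lemma brf_sq {N : ℕ} (hN : 0 < N) : brf (vN N) (N - 1) ^ 2 = (-1) ^ (N - 1) * (N : ℂ) ^ 2 := by
  obtain ⟨M, rfl⟩ : ∃ M, N = M + 1 := ⟨N - 1, by omega⟩
  rw [Nat.add_sub_cancel]
  set v := vN (M + 1) with hv
  have hv0 : v ≠ 0 := vN_ne _
  have h1 := (prim hN).prod_one_sub_pow_eq_order
  -- each factor
  have h2 : ∀ j ∈ range M, br v ((j : ℤ) + 1) * br v ((j : ℤ) + 1) =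
      (-1) * ((1 - (v ^ 2) ^ (j + 1)) * (1 - (v ^ 2) ^ (M - 1 - j + 1))) := by
    intro j hj
    have hjM := mem_range.1 hj
    have e1 : br v ((j : ℤ) + 1) = -(v ^ (-((j : ℤ) + 1)) * (1 - (v ^ 2) ^ (j + 1))) := by
      unfold br
      have : (v ^ 2) ^ (j + 1) = v ^ ((j : ℤ) + 1) * v ^ ((j : ℤ) + 1) := by
        rw [← zpow_add₀ hv0, ← pow_mul, ← zpow_natCast]
        congr 1
        push_cast
        ring
      rw [this, mul_sub, ← mul_assoc, ← zpow_add₀ hv0, neg_add_cancel, zpow_zero]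
      ring
    have e2 : br v ((j : ℤ) + 1) = br v (((M - 1 - j : ℕ) : ℤ) + 1) := by
      have : (((M - 1 - j : ℕ) : ℤ) + 1) = ((M + 1 : ℕ) : ℤ) - ((j : ℤ) + 1) := by
        push_cast
        omega
      rw [this, hv, br_sub_N hN]
    have e3 : br v (((M - 1 - j : ℕ) : ℤ) + 1) =
        -(v ^ (-(((M - 1 - j : ℕ) : ℤ) + 1)) * (1 - (v ^ 2) ^ (M - 1 - j + 1))) := by
      unfold br
      have : (v ^ 2) ^ (M - 1 - j + 1) = v ^ (((M - 1 - j : ℕ) : ℤ) + 1) *
          v ^ (((M - 1 - j : ℕ) : ℤ) + 1) := by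
        rw [← zpow_add₀ hv0, ← pow_mul, ← zpow_natCast]
        congr 1
        push_cast
        ring
      rw [this, mul_sub, ← mul_assoc, ← zpow_add₀ hv0, neg_add_cancel, zpow_zero]
      ring
    have e4 : v ^ (-((j : ℤ) + 1)) * v ^ (-(((M - 1 - j : ℕ) : ℤ) + 1)) = -1 := by
      rw [← zpow_add₀ hv0]
      have : -((j : ℤ) + 1) + -(((M - 1 - j : ℕ) : ℤ) + 1) = -(((M + 1 : ℕ)) : ℤ) := by
        push_cast
        omega
      rw [this, zpow_neg, hv, vN_pow hN]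
      norm_num
    nth_rewrite 2 [e2]
    rw [e1, e3]
    linear_combination ((1 - (v ^ 2) ^ (j + 1)) * (1 - (v ^ 2) ^ (M - 1 - j + 1))) * e4
  have h3 : brf v M ^ 2 = ∏ j ∈ range M, (br v ((j : ℤ) + 1) * br v ((j : ℤ) + 1)) := by
    rw [Finset.prod_mul_distrib, sq]
    rfl
  rw [h3, Finset.prod_congr rfl h2, Finset.prod_mul_distrib, Finset.prod_mul_distrib,
    Finset.prod_const, card_range, Finset.prod_range_reflect (fun j => 1 - (v ^ 2) ^ (j + 1)) M, h1]
  push_cast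
  ring

lemma brf_ne {N n : ℕ} (hn : n < N) : brf (vN N) n ≠ 0 := by
  unfold brf
  rw [Finset.prod_ne_zero_iff]
  intro j hj
  have := mem_range.1 hj
  exact br_ne (by omega) (by omega)

lemma prod_shift {N : ℕ} (hN : 0 < N) (c : ℕ) :
    ∏ j ∈ range c, br (vN N) ((N : ℤ) + j + 1) = (-1) ^ c * brf (vN N) c := by
  have e : ∀ j : ℕ, br (vN N) ((N : ℤ) + j + 1) = (-1) * br (vN N) ((j : ℤ) + 1) := by
    intro j
    rw [add_assoc, br_add_N hN]
    ring
  simp only [e]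
  rw [Finset.prod_mul_distrib, Finset.prod_const, card_range]
  rfl

lemma brf_split {N c : ℕ} (hc : c < N) :
    brf (vN N) (N - 1 - c) * brf (vN N) c = brf (vN N) (N - 1) := by
  have hN : 0 < N := by omega
  have h1 : N - 1 = c + (N - 1 - c) := by omega
  conv_rhs => rw [h1, brf_add]
  rw [mul_comm]
  congr 1
  unfold brf
  rw [← Finset.prod_range_reflect]
  apply Finset.prod_congr rfl
  intro j hj
  have := mem_range.1 hj
  have e : (c : ℤ) + j + 1 = (N : ℤ) - (((N - 1 - c - 1 - j : ℕ) : ℤ) + 1) := by omega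
  rw [e, br_sub_N hN]

lemma Pc_val {N c : ℕ} (hc : c < N) :
    (-1 : ℂ) ^ (N - 1 - c) / Pc N c (vN N) = 1 / (N : ℂ) ^ 2 := by
  have hN : 0 < N := by omega
  have hNc : (N : ℂ) ^ 2 ≠ 0 := pow_ne_zero _ (by exact_mod_cast hN.ne')
  have h1 : Pc N c (vN N) = (-1) ^ (N - 1 - c) * (N : ℂ) ^ 2 := by
    unfold Pc
    rw [prod_shift hN]
    have e : brf (vN N) (N - 1 - c) * brf (vN N) (N - 1) * ((-1) ^ c * brf (vN N) c) =
        (-1) ^ c * (brf (vN N) (N - 1 - c) * brf (vN N) c) * brf (vN N) (N - 1) := by ring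
    rw [e, brf_split hc]
    have e2 : (-1 : ℂ) ^ (N - 1) = (-1) ^ c * (-1) ^ (N - 1 - c) := by
      rw [← pow_add]; congr 1; omega
    have e3 : (-1 : ℂ) ^ c * (-1) ^ c = 1 := by rw [← mul_pow]; norm_num
    calc (-1) ^ c * brf (vN N) (N - 1) * brf (vN N) (N - 1) = (-1) ^ c * brf (vN N) (N - 1) ^ 2 := by
          ring
      _ = ((-1 : ℂ) ^ c * (-1) ^ c) * ((-1) ^ (N - 1 - c) * (N : ℂ) ^ 2) := by
          rw [brf_sq hN, e2]; ring
      _ = _ := by rw [e3, one_mul]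
  have h2 : ((-1 : ℂ) ^ (N - 1 - c)) ≠ 0 := pow_ne_zero _ (by norm_num)
  rw [h1]
  field_simp

lemma Pc_ne {N c : ℕ} (hc : c < N) : Pc N c (vN N) ≠ 0 := by
  intro h
  have h1 := Pc_val hc
  rw [h, div_zero] at h1
  have hN : 0 < N := by omega
  have hNc : (N : ℂ) ^ 2 ≠ 0 := pow_ne_zero _ (by exact_mod_cast hN.ne')
  exact (one_div_ne_zero hNc) h1.symm

/-! ### derivatives -/

lemma br_hasDeriv {v : ℂ} (hv : v ≠ 0) (n : ℤ) :
    HasDerivAt (fun v => br v n) (n / v * (v ^ n + v ^ (-n))) v := by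
  unfold br
  have h1 := hasDerivAt_zpow n v (Or.inl hv)
  have h2 := hasDerivAt_zpow (-n) v (Or.inl hv)
  refine (h1.fun_sub h2).congr_deriv ?_
  rw [zpow_sub_one₀ hv, zpow_sub_one₀ hv]
  push_cast
  field_simp
  ring

/-- the logarithmic derivative without the factor `m / v` -/
noncomputable def KK (N : ℕ) (m : ℤ) : ℂ := (vN N ^ m + vN N ^ (-m)) / br (vN N) m

lemma logD (N : ℕ) (m : ℤ) : logDeriv (fun v => br v m) (vN N) = m / vN N * KK N m := by
  rw [logDeriv_apply, (br_hasDeriv (vN_ne N) m).deriv]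
  unfold KK
  rw [mul_div_assoc]

lemma KK_add {N : ℕ} (hN : 0 < N) (m : ℤ) : KK N ((N : ℤ) + m) = KK N m := by
  unfold KK
  rw [br_add_N hN, zpow_add₀ (vN_ne N), neg_add, zpow_add₀ (vN_ne N), vN_pow hN, zpow_neg,
    vN_pow hN]
  rw [show (-1 : ℂ) * vN N ^ m + (-1)⁻¹ * vN N ^ (-m) = -(vN N ^ m + vN N ^ (-m)) by
    norm_num; ring, neg_div_neg_eq]

lemma KK_neg (N : ℕ) (m : ℤ) : KK N (-m) = -KK N m := by
  unfold KK
  rw [br_neg, neg_neg, div_neg, add_comm]

lemma KK_sub {N : ℕ} (hN : 0 < N) (m : ℤ) : KK N ((N : ℤ) - m) = -KK N m := by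
  rw [sub_eq_add_neg, KK_add hN, KK_neg]

lemma sumK {N c : ℕ} (hc : c < N) : ∑ j ∈ range (N - 1 - c), KK N ((j : ℤ) + 1) =
    ∑ j ∈ range c, KK N ((j : ℤ) + 1) := by
  have hN : 0 < N := by omega
  have key : ∀ c : ℕ, c < N → ∑ j ∈ range (N - 1), KK N ((j : ℤ) + 1) =
      ∑ j ∈ range c, KK N ((j : ℤ) + 1) - ∑ j ∈ range (N - 1 - c), KK N ((j : ℤ) + 1) := by
    intro c hc
    have h1 : N - 1 = c + (N - 1 - c) := by omega
    conv_lhs => rw [h1, Finset.sum_range_add]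
    rw [sub_eq_add_neg]
    congr 1
    rw [← Finset.sum_neg_distrib, ← Finset.sum_range_reflect]
    apply Finset.sum_congr rfl
    intro j hj
    have := mem_range.1 hj
    have e : (((c + (N - 1 - c - 1 - j) : ℕ) : ℤ) + 1) = (N : ℤ) - ((j : ℤ) + 1) := by omega
    rw [e, KK_sub hN]
  have h0 := key 0 hN
  rw [range_zero, sum_empty, Nat.sub_zero, zero_sub] at h0
  have h1 : ∑ j ∈ range (N - 1), KK N ((j : ℤ) + 1) = 0 := by
    have : (2 : ℂ) * ∑ j ∈ range (N - 1), KK N ((j : ℤ) + 1) = 0 := by linear_combination h0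
    rcases mul_eq_zero.1 this with h | h
    · norm_num at h
    · exact h
  have h2 := key c hc
  rw [h1] at h2
  exact (sub_eq_zero.1 h2.symm).symm

lemma brf_diff {v : ℂ} (hv : v ≠ 0) (n : ℕ) : DifferentiableAt ℂ (fun v => brf v n) v := by
  unfold brf
  apply DifferentiableAt.fun_finsetProd
  intro j _
  exact (br_hasDeriv hv _).differentiableAt

lemma shift_diff {v : ℂ} (hv : v ≠ 0) (N c : ℕ) :
    DifferentiableAt ℂ (fun v => ∏ j ∈ range c, br v ((N : ℤ) + j + 1)) v := by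
  apply DifferentiableAt.fun_finsetProd
  intro j _
  exact (br_hasDeriv hv _).differentiableAt

lemma Pc_diff {v : ℂ} (hv : v ≠ 0) (N c : ℕ) : DifferentiableAt ℂ (Pc N c) v := by
  have h : DifferentiableAt ℂ (fun v => brf v (N - 1 - c) * brf v (N - 1) *
      ∏ j ∈ range c, br v ((N : ℤ) + j + 1)) v :=
    ((brf_diff hv _).mul (brf_diff hv _)).mul (shift_diff hv N c)
  exact h

lemma logPc {N c : ℕ} (hc : c < N) : logDeriv (Pc N c) (vN N) =
    (∑ j ∈ range (N - 1 - c), (((j : ℤ) + 1 : ℤ) : ℂ) / vN N * KK N ((j : ℤ) + 1)) +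
    (∑ j ∈ range (N - 1), (((j : ℤ) + 1 : ℤ) : ℂ) / vN N * KK N ((j : ℤ) + 1)) +
    ∑ j ∈ range c, (((N : ℤ) + j + 1 : ℤ) : ℂ) / vN N * KK N ((j : ℤ) + 1) := by
  have hN : 0 < N := by omega
  have hv := vN_ne N
  have hne : ∏ j ∈ range c, br (vN N) ((N : ℤ) + j + 1) ≠ 0 := by
    rw [prod_shift hN]
    exact mul_ne_zero (pow_ne_zero _ (by norm_num)) (brf_ne hc)
  have hb : ∀ n, n < N → logDeriv (fun v => brf v n) (vN N) =
      ∑ j ∈ range n, (((j : ℤ) + 1 : ℤ) : ℂ) / vN N * KK N ((j : ℤ) + 1) := by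
    intro n hn
    have := logDeriv_prod (𝕜 := ℂ) (𝕜' := ℂ) (s := range n)
      (f := fun (j : ℕ) (v : ℂ) => br v ((j : ℤ) + 1)) (x := vN N)
      (fun j hj => by
        have := mem_range.1 hj
        exact br_ne (by omega) (by omega))
      (fun j _ => (br_hasDeriv hv _).differentiableAt)
    unfold brf
    rw [this]
    exact Finset.sum_congr rfl fun j _ => logD N _
  have hs : logDeriv (fun v => ∏ j ∈ range c, br v ((N : ℤ) + j + 1)) (vN N) =
      ∑ j ∈ range c, (((N : ℤ) + j + 1 : ℤ) : ℂ) / vN N * KK N ((j : ℤ) + 1) := by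
    have := logDeriv_prod (𝕜 := ℂ) (𝕜' := ℂ) (s := range c)
      (f := fun (j : ℕ) (v : ℂ) => br v ((N : ℤ) + j + 1)) (x := vN N)
      (fun j hj => (Finset.prod_ne_zero_iff.1 hne) j hj)
      (fun j _ => (br_hasDeriv hv _).differentiableAt)
    rw [this]
    apply Finset.sum_congr rfl
    intro j _
    rw [logD]
    congr 1
    rw [add_assoc, KK_add hN]
  have h1 : logDeriv (Pc N c) (vN N) = logDeriv (fun v => brf v (N - 1 - c) * brf v (N - 1)) (vN N) +
      logDeriv (fun v => ∏ j ∈ range c, br v ((N : ℤ) + j + 1)) (vN N) :=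
    logDeriv_mul (f := fun v => brf v (N - 1 - c) * brf v (N - 1))
      (g := fun v => ∏ j ∈ range c, br v ((N : ℤ) + j + 1)) (vN N)
      (mul_ne_zero (brf_ne (by omega)) (brf_ne (by omega))) hne
      ((brf_diff hv _).mul (brf_diff hv _)) (shift_diff hv N c)
  have h2 : logDeriv (fun v => brf v (N - 1 - c) * brf v (N - 1)) (vN N) =
      logDeriv (fun v => brf v (N - 1 - c)) (vN N) + logDeriv (fun v => brf v (N - 1)) (vN N) :=
    logDeriv_mul (f := fun v => brf v (N - 1 - c)) (g := fun v => brf v (N - 1)) (vN N)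
      (brf_ne (by omega)) (brf_ne (by omega)) (brf_diff hv _) (brf_diff hv _)
  rw [h1, h2, hb _ (by omega), hb _ (by omega), hs]

lemma logPc_eq {N c : ℕ} (hc : c < N) :
    logDeriv (Pc N c) (vN N) = logDeriv (Pc N (N - 1 - c)) (vN N) := by
  rw [logPc hc, logPc (show N - 1 - c < N by omega)]
  have e : N - 1 - (N - 1 - c) = c := by omega
  rw [e]
  have hs : ∀ n : ℕ, ∑ j ∈ range n, (((N : ℤ) + j + 1 : ℤ) : ℂ) / vN N * KK N ((j : ℤ) + 1) =
      (N : ℂ) / vN N * ∑ j ∈ range n, KK N ((j : ℤ) + 1) +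
        ∑ j ∈ range n, (((j : ℤ) + 1 : ℤ) : ℂ) / vN N * KK N ((j : ℤ) + 1) := by
    intro n
    rw [Finset.mul_sum, ← Finset.sum_add_distrib]
    apply Finset.sum_congr rfl
    intro j _
    push_cast
    ring
  rw [hs, hs, sumK hc]
  ring

end Pool.Agent.W12.AR

namespace Pool.Agent.W12.AR

open Finset Filter Topology
open Pool.Agent.H550R3.Jones Pool.Agent.W711.HT Pool.Agent.W719.AR
open scoped Real

lemma ev_br {N : ℕ} (hN : 0 < N) : ∀ᶠ v in 𝓝[≠] vN N, v ≠ 0 ∧ br v N ≠ 0 := by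
  have h0 : ∀ᶠ v in 𝓝[≠] vN N, v ≠ 0 :=
    (isOpen_ne.mem_nhds (vN_ne N) |> fun h => mem_nhdsWithin_of_mem_nhds h)
  have hd := br_hasDeriv (vN_ne N) (N : ℤ)
  have hne : ((N : ℤ) : ℂ) / vN N * (vN N ^ (N : ℤ) + vN N ^ (-(N : ℤ))) ≠ 0 := by
    rw [zpow_neg, vN_pow hN]
    have hNc : ((N : ℤ) : ℂ) ≠ 0 := by exact_mod_cast hN.ne'
    refine mul_ne_zero (div_ne_zero hNc (vN_ne N)) ?_
    norm_num
  have h1 : ∀ᶠ v in 𝓝[≠] vN N, br v N ≠ 0 := hd.eventually_ne hne
  exact h0.and h1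

theorem gam_lim : S_GAM := by
  intro N hN2 c hc
  have hN : 0 < N := by omega
  have hv := vN_ne N
  have hlim : ∀ c, c < N → Tendsto (fun v => gam N v c) (𝓝[≠] vN N) (𝓝 (1 / (N : ℂ) ^ 2)) := by
    intro c hc
    rw [← Pc_val hc]
    have h1 : ContinuousAt (fun v => (-1 : ℂ) ^ (N - 1 - c) / Pc N c v) (vN N) :=
      continuousAt_const.div (Pc_diff hv N c).continuousAt (Pc_ne hc)
    refine (h1.tendsto.mono_left nhdsWithin_le_nhds).congr' ?_
    filter_upwards [ev_br hN] with v hv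
    exact (gam_eq hv.1 hc hv.2).symm
  refine ⟨hlim c hc, fun hcN => ?_⟩
  set c' := N - 1 - c with hc'
  have hc'N : c' < N := by omega
  -- the numerator
  have hg : ∀ c, c < N → HasDerivAt (fun v => (-1 : ℂ) ^ (N - 1 - c) / Pc N c v)
      (-(1 / (N : ℂ) ^ 2 * logDeriv (Pc N c) (vN N))) (vN N) := by
    intro c hc
    have h1 := (hasDerivAt_const (vN N) ((-1 : ℂ) ^ (N - 1 - c))).fun_div
      (Pc_diff hv N c).hasDerivAt (Pc_ne hc)
    refine h1.congr_deriv ?_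
    rw [← Pc_val hc, logDeriv_apply]
    have := Pc_ne hc
    field_simp
    ring
  have hh := (hg c hc).sub (hg c' hc'N)
  rw [← logPc_eq hc, sub_self] at hh
  have hnum : Tendsto (fun v => (gam N v c - gam N v c') / (v - vN N)) (𝓝[≠] vN N) (𝓝 0) := by
    refine hh.tendsto_slope.congr' ?_
    filter_upwards [ev_br hN] with v hv
    rw [slope_def_field]
    simp only [Pi.sub_apply]
    rw [Pc_val hc, Pc_val hc'N, sub_self, sub_zero, gam_eq hv.1 hc hv.2, gam_eq hv.1 hc'N hv.2]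
  -- the denominator
  have hd1 := br_hasDeriv hv (N : ℤ)
  have hbN : br (vN N) (N : ℤ) = 0 := by
    have := br_sub_N hN 0
    rw [sub_zero] at this
    rw [this]
    unfold br
    simp
  have hden : Tendsto (fun v => (un v c - un v c') / (v - vN N)) (𝓝[≠] vN N)
      (𝓝 (br (vN N) ((c : ℤ) - c') *
        ((N : ℤ) / vN N * (vN N ^ (N : ℤ) + vN N ^ (-(N : ℤ)))))) := by
    have h1 : Tendsto (fun v => br v ((c : ℤ) - c')) (𝓝[≠] vN N) (𝓝 (br (vN N) ((c : ℤ) - c'))) :=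
      ((br_hasDeriv hv _).continuousAt.tendsto).mono_left nhdsWithin_le_nhds
    refine (h1.mul hd1.tendsto_slope).congr' ?_
    filter_upwards [ev_br hN] with v hv
    rw [slope_def_field, hbN, sub_zero, un_sub hv.1]
    have e : (c : ℤ) + c' + 1 = N := by omega
    rw [e]
    ring
  have hne : br (vN N) ((c : ℤ) - c') *
        ((N : ℤ) / vN N * (vN N ^ (N : ℤ) + vN N ^ (-(N : ℤ)))) ≠ 0 := by
    refine mul_ne_zero ?_ ?_
    · rcases lt_or_gt_of_ne (show c ≠ c' by omega) with h | h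
      · have e : (c : ℤ) - c' = -((c' : ℤ) - c) := by ring
        rw [e, br_neg]
        exact neg_ne_zero.2 (br_ne (by omega) (by omega))
      · exact br_ne (by omega) (by omega)
    · rw [zpow_neg, vN_pow hN]
      have hNc : ((N : ℤ) : ℂ) ≠ 0 := by exact_mod_cast hN.ne'
      refine mul_ne_zero (div_ne_zero hNc (vN_ne N)) ?_
      norm_num
  have := hnum.div hden hne
  rw [zero_div] at this
  refine this.congr' ?_
  filter_upwards [self_mem_nhdsWithin] with v hv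
  have hvv : v - vN N ≠ 0 := sub_ne_zero.2 hv
  simp only [Pi.div_apply]
  rw [div_div_div_cancel_right₀ hvv]

end Pool.Agent.W12.AR
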